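import Pool.Agent.Helper26.NuclearBlock

set_option autoImplicit false

/-!
# Edge-critical nuclear blocks of domination-critical graphs are complete

Own form of the answer, in textbook terms: domination numbers of graphs on their own vertex sets,
blocks as maximal connected subgraphs without a cutvertex of their own, any universe.
-/

namespace Pool.Agent.Results.MP_ba45ff_co.Full

universe u

/-- The domination number: the least size of a set `D` of vertices such that every vertex
outside `D` has a neighbour in `D`. -/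
noncomputable def domNum {V : Type u} (G : SimpleGraph V) : ℕ :=
  sInf {n : ℕ | ∃ D : Finset V, D.card = n ∧ ∀ v, v ∉ D → ∃ w ∈ D, G.Adj v w}

/-- `G` is `k`-edge-critical: the domination number is `k`, and it is `k - 1` for `G + e`, for every
pair `e` of distinct nonadjacent vertices. -/
def EdgeCritical {V : Type u} (k : ℕ) (G : SimpleGraph V) : Prop :=
  domNum G = k ∧ ∀ u v : V, u ≠ v → ¬ G.Adj u v → domNum (G ⊔ SimpleGraph.edge u v) + 1 = k

/-- The graph `G - v`. -/
abbrev del {V : Type u} (G : SimpleGraph V) (v : V) : SimpleGraph ({v}ᶜ : Set V) :=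
  G.induce ({v}ᶜ : Set V)

/-- `G` has no cutvertex: every `G - c` is connected (or empty). -/
def NoCutvertex {V : Type u} (G : SimpleGraph V) : Prop :=
  ∀ c : V, (del G c).Preconnected

/-- `N` is a block of `G`: a maximal connected subgraph without a cutvertex of its own. -/
def IsBlock {V : Type u} {G : SimpleGraph V} (N : G.Subgraph) : Prop :=
  N.Connected ∧ NoCutvertex N.coe ∧
    ∀ H : G.Subgraph, N ≤ H → H.Connected → NoCutvertex H.coe → H = N

section

variable {V : Type u} [Finite V]

open SimpleGraph

omit [Finite V] in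
private theorem domNum_induce (G : SimpleGraph V) (S : Set V) :
    domNum (G.induce S) = sInf {n : ℕ | ∃ D : Finset V, (↑D : Set V) ⊆ S ∧ D.card = n ∧
      ∀ v ∈ S, v ∈ D ∨ ∃ w ∈ D, G.Adj v w} := by
  classical
  unfold domNum
  congr 1
  ext n
  constructor
  · rintro ⟨D, hD, h⟩
    refine ⟨D.map (Function.Embedding.subtype _), ?_, by rw [Finset.card_map, hD], ?_⟩
    · intro v hv
      simp only [Finset.coe_map, Function.Embedding.subtype_apply, Set.mem_image] at hv
      obtain ⟨w, -, rfl⟩ := hv
      exact w.2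
    · intro v hv
      by_cases hvD : (⟨v, hv⟩ : S) ∈ D
      · left
        rw [Finset.mem_map]
        exact ⟨⟨v, hv⟩, hvD, rfl⟩
      · right
        obtain ⟨w, hw, hadj⟩ := h ⟨v, hv⟩ hvD
        exact ⟨w, by rw [Finset.mem_map]; exact ⟨w, hw, rfl⟩, hadj⟩
  · rintro ⟨D, hDS, hD, h⟩
    have hmap : (D.subtype (· ∈ S)).map (Function.Embedding.subtype _) = D := by
      rw [Finset.subtype_map]
      apply Finset.filter_true_of_mem
      intro v hv
      exact hDS hv
    refine ⟨D.subtype (· ∈ S), ?_, ?_⟩
    · rw [← hD]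
      conv_rhs => rw [← hmap]
      rw [Finset.card_map]
    · intro v hv
      rcases h v.1 v.2 with h1 | ⟨w, hw, hadj⟩
      · exact absurd (Finset.mem_subtype.2 h1) hv
      · exact ⟨⟨w, hDS hw⟩, Finset.mem_subtype.2 hw, hadj⟩

omit [Finite V] in
private theorem domNum_univ (G : SimpleGraph V) :
    domNum G = sInf {n : ℕ | ∃ D : Finset V, (↑D : Set V) ⊆ Set.univ ∧ D.card = n ∧
      ∀ v ∈ Set.univ, v ∈ D ∨ ∃ w ∈ D, G.Adj v w} := by
  unfold domNum
  congr 1
  ext n
  constructor
  · rintro ⟨D, hD, h⟩
    refine ⟨D, Set.subset_univ _, hD, ?_⟩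
    intro v _
    by_cases hv : v ∈ D
    · exact Or.inl hv
    · exact Or.inr (h v hv)
  · rintro ⟨D, -, hD, h⟩
    refine ⟨D, hD, ?_⟩
    intro v hv
    rcases h v (Set.mem_univ v) with h1 | h1
    · exact absurd h1 hv
    · exact h1

omit [Finite V] in
private theorem induce_edge (G : SimpleGraph V) (S : Set V) (u v : S) :
    (G ⊔ edge u.1 v.1).induce S = G.induce S ⊔ edge u v := by
  ext a b
  simp only [comap_adj, Function.Embedding.subtype_apply, sup_adj, edge_adj, ne_eq,
    Subtype.ext_iff]

/-- deleting a vertex from an induced subgraph -/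
private def delIso (G : SimpleGraph V) (S : Set V) (v : V) (hv : v ∈ S) :
    (G.induce S).induce ({(⟨v, hv⟩ : S)}ᶜ : Set S) ≃g G.induce (S \ {v}) where
  toFun x := ⟨x.1.1, x.1.2, fun h => x.2 (Subtype.ext h)⟩
  invFun x := ⟨⟨x.1, x.2.1⟩, fun h => x.2.2 (congrArg Subtype.val h)⟩
  left_inv _ := rfl
  right_inv _ := rfl
  map_rel_iff' := Iff.rfl

omit [Finite V] in
private theorem noCut_iff (G : SimpleGraph V) (S : Set V) :
    NoCutvertex (G.induce S) ↔ ∀ v ∈ S, (G.induce (S \ {v})).Preconnected := by
  constructor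
  · intro h v hv
    exact (delIso G S v hv).preconnected_iff.1 (h ⟨v, hv⟩)
  · rintro h ⟨v, hv⟩
    exact (delIso G S v hv).preconnected_iff.2 (h v hv)

omit [Finite V] in
private theorem coe_top_induce (G : SimpleGraph V) (S : Set V) :
    ((⊤ : G.Subgraph).induce S).coe = G.induce S := (induce_eq_coe_induce_top S).symm

omit [Finite V] in
private theorem block_induced {G : SimpleGraph V} {N : G.Subgraph} (hN : IsBlock N) :
    (⊤ : G.Subgraph).induce N.verts = N := by
  have hle : N ≤ (⊤ : G.Subgraph).induce N.verts := by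
    constructor
    · exact subset_rfl
    · intro a b hab
      exact ⟨N.edge_vert hab, N.edge_vert hab.symm, hab.adj_sub⟩
  apply hN.2.2 _ hle
  · have h1 : N.coe ≤ ((⊤ : G.Subgraph).induce N.verts).coe := fun a b hab => hle.2 hab
    have h2 : N.coe.Connected := hN.1
    exact ⟨h2.mono h1⟩
  · intro c
    have h1 : N.coe ≤ ((⊤ : G.Subgraph).induce N.verts).coe := fun a b hab => hle.2 hab
    have h2 := hN.2.1 c
    exact h2.mono (fun a b hab => h1 hab)

end

/-- **Main theorem.** If `G` is a finite connected edge-critical graph with a cutvertex, `N` is a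
block of `G` which contains the nucleus, and `N` is edge-critical as a graph in its own right,
then `N` is complete. -/
theorem result {V : Type u} [Finite V] (G : SimpleGraph V) (hG : G.Connected) (k : ℕ)
    (hk : EdgeCritical k G) (hcut : ¬ NoCutvertex G) (N : G.Subgraph) (hN : IsBlock N)
    (hnuc : ∀ v, domNum (del G v) = domNum G → v ∈ N.verts) (l : ℕ)
    (hl : EdgeCritical l N.coe) : N.coe = ⊤ := by
  classical
  have : Fintype V := Fintype.ofFinite V
  let γ : SimpleGraph V → Set V → ℕ := fun H S =>
    sInf {n : ℕ | ∃ D : Finset V, (↑D : Set V) ⊆ S ∧ D.card = n ∧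
      ∀ v ∈ S, v ∈ D ∨ ∃ w ∈ D, H.Adj v w}
  have hγ : Helper26.IsGam γ := fun _ _ => rfl
  have hγu : ∀ H : SimpleGraph V, γ H Set.univ = domNum H := fun H => (domNum_univ H).symm
  have hγS : ∀ (H : SimpleGraph V) (S : Set V), γ H S = domNum (H.induce S) := fun H S =>
    (domNum_induce H S).symm
  have hcoe : N.coe = G.induce N.verts := by
    have h := coe_top_induce G N.verts
    have h2 : ((⊤ : G.Subgraph).induce N.verts).coe = N.coe := by
      ext a b
      constructor
      · intro hab
        have h3 : ((⊤ : G.Subgraph).induce N.verts).Adj a.1 b.1 := hab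
        exact (block_induced hN).le.2 h3
      · intro hab
        exact ⟨a.2, b.2, hab.adj_sub⟩
    exact h2.symm.trans h
  have hB : Helper26.IsBlock G N.verts := by
    refine ⟨?_, ?_, ?_⟩
    · rw [← hcoe]
      exact hN.1.1
    · rw [← noCut_iff, ← hcoe]
      exact hN.2.1
    · intro B' hBB' hconn hcut'
      have hle : N ≤ (⊤ : G.Subgraph).induce B' := by
        constructor
        · exact hBB'
        · intro a b hab
          exact ⟨hBB' (N.edge_vert hab), hBB' (N.edge_vert hab.symm), hab.adj_sub⟩
      have h1 := hN.2.2 _ hle (by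
        have h2 : ((⊤ : G.Subgraph).induce B').coe.Connected := by
          rw [coe_top_induce]
          exact hconn
        exact ⟨h2⟩) (by
        rw [coe_top_induce]
        exact (noCut_iff G B').2 hcut')
      rw [← h1]
      rfl
  have hcut' : ∃ c : V, ¬ (G.induce ({c}ᶜ : Set V)).Preconnected := by
    unfold NoCutvertex at hcut
    push Not at hcut
    exact hcut
  have hmain := Helper26.nuclear_block G γ hγ hG (by
    intro u v huv hn
    rw [hγu, hγu, hk.1]
    have := hk.2 u v huv hn
    omega) hcut' N.verts hB (by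
    intro v hv
    apply hnuc v
    rw [Set.mem_ofPred_eq, hγS, hγu] at hv
    exact hv) (by
    intro u hu v hv huv hn
    rw [hγS, hγS, induce_edge G N.verts ⟨u, hu⟩ ⟨v, hv⟩, ← hcoe, hl.1]
    have := hl.2 ⟨u, hu⟩ ⟨v, hv⟩ (fun h => huv (congrArg Subtype.val h)) (by
      rw [hcoe]
      exact hn)
    omega)
  ext a b
  rw [SimpleGraph.top_adj]
  constructor
  · intro hab
    exact hab.ne
  · intro hab
    rw [hcoe]
    exact hmain a.1 a.2 b.1 b.2 (fun h => hab (Subtype.ext h))

end Pool.Agent.Results.MP_ba45ff_co.Full
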